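import Mathlib
import Pool.Agent.Helper746.QcFnorm
import Pool.Agent.Helper746.QcBlowup
import Pool.Agent.Helper514.IoD

set_option autoImplicit false

namespace Pool.Agent.Results.MP_d8b51b_an.DimensionFreeInjectivity

open Set Metric MeasureTheory Filter Topology
open scoped ENNReal

/-- Euclidean `n`-space. -/
abbrev Eucl (n : ℕ) := EuclideanSpace ℝ (Fin n)

/-- `M_f(x, r)`: the supremum of `|f ξ - f x|` over the sphere `|ξ - x| = r`. -/
noncomputable def maxDist {n : ℕ} (f : Eucl n → Eucl n) (x : Eucl n) (r : ℝ) : ℝ≥0∞ :=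
  ⨆ ξ ∈ sphere x r, edist (f ξ) (f x)

/-- `m_f(x, r)`: the infimum of `|f ξ - f x|` over the sphere `|ξ - x| = r`. -/
noncomputable def minDist {n : ℕ} (f : Eucl n → Eucl n) (x : Eucl n) (r : ℝ) : ℝ≥0∞ :=
  ⨅ ξ ∈ sphere x r, edist (f ξ) (f x)

/-- The linear dilatation of `f` at `x`, the upper limit of `M_f(x, δ) / m_f(x, δ)` as `δ` tends to `0+`. -/
noncomputable def linDil {n : ℕ} (f : Eucl n → Eucl n) (x : Eucl n) : ℝ≥0∞ :=
  limsup (fun δ : ℝ => maxDist f x δ / minDist f x δ) (𝓝[>] (0 : ℝ))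

/-- `f` is quasiconformal on the open set `U` (metric definition): continuous and injective on `U`, and its
linear dilatation is bounded on `U`. -/
def IsQCOn {n : ℕ} (f : Eucl n → Eucl n) (U : Set (Eucl n)) : Prop :=
  IsOpen U ∧ ContinuousOn f U ∧ InjOn f U ∧ ∃ H : ℝ≥0∞, H < ⊤ ∧ ∀ x ∈ U, linDil f x ≤ H

/-- `‖f'(x)‖ · ‖f'(x)⁻¹‖` if `f` is differentiable at `x` with invertible derivative `f'(x)`, and `∞` otherwise. -/
noncomputable def dil {n : ℕ} (f : Eucl n → Eucl n) (x : Eucl n) : ℝ≥0∞ :=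
  ⨅ (A : Eucl n ≃L[ℝ] Eucl n) (_ : HasFDerivAt f (A : Eucl n →L[ℝ] Eucl n) x),
    ENNReal.ofReal (‖(A : Eucl n →L[ℝ] Eucl n)‖ * ‖(A.symm : Eucl n →L[ℝ] Eucl n)‖)

/-- The coefficient of quasiconformality `k_f`, the essential supremum over the unit ball of
`‖f'(x)‖ · ‖f'(x)⁻¹‖`. -/
noncomputable def coeffQC {n : ℕ} (f : Eucl n → Eucl n) : ℝ≥0∞ :=
  essSup (dil f) (volume.restrict (ball (0 : Eucl n) 1))

/-- The class `Q'_k`: (functions whose restriction to the open unit ball is) a local homeomorphism,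
quasiconformal on a neighbourhood of each point of the unit ball, with `k_f < k`. -/
structure IsLocQC {n : ℕ} (k : ℝ) (f : Eucl n → Eucl n) : Prop where
  localHomeo : IsLocalHomeomorphOn f (ball 0 1)
  locQC : ∀ x ∈ ball (0 : Eucl n) 1, ∃ U : Set (Eucl n), x ∈ U ∧ IsQCOn f U
  coeff_lt : coeffQC f < ENNReal.ofReal k

/-- `r_f`: the supremum of the radii `ρ ≤ 1` such that `f` is injective on the ball `|x| < ρ`. -/
noncomputable def injRadius {n : ℕ} (f : Eucl n → Eucl n) : ℝ≥0∞ :=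
  ⨆ (ρ : ℝ) (_ : ρ ≤ 1) (_ : InjOn f (ball 0 ρ)), ENNReal.ofReal ρ

/-- `r(n, k)`, the infimum of `r_f` over the class `Q'_k`. -/
noncomputable def rad (n : ℕ) (k : ℝ) : ℝ≥0∞ :=
  ⨅ (f : Eucl n → Eucl n) (_ : IsLocQC k f), injRadius f

/-- `R(k)`, the infimum of `r(n, k)` over `n ≥ 3`. -/
noncomputable def R (k : ℝ) : ℝ≥0∞ :=
  ⨅ (n : ℕ) (_ : 3 ≤ n), rad n k

open Pool.Agent.Helper746.Qc in
theorem rnd_of_linDil {n : ℕ} {f : Eucl n → Eucl n} {x : Eucl n} {K : ℝ} (hK : 0 ≤ K)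
    (h : linDil f x < ENNReal.ofReal K) : Rnd K f x := by
  have h1 := Filter.eventually_lt_of_limsup_lt h
  rw [eventually_nhdsWithin_iff, Metric.eventually_nhds_iff] at h1
  obtain ⟨δ, hδ, h2⟩ := h1
  refine ⟨δ, hδ, ?_⟩
  intro ξ ξ' he hp hl
  have h3 := h2 (y := dist ξ x) (by simpa [Real.dist_eq, abs_of_pos hp] using hl) hp
  by_contra hcon
  push Not at hcon
  have h4 : maxDist f x (dist ξ x) ≤ ENNReal.ofReal K * minDist f x (dist ξ x) := by
    rcases eq_or_ne (minDist f x (dist ξ x)) 0 with h0 | h0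
    · rw [h0] at h3
      rcases eq_or_ne (maxDist f x (dist ξ x)) 0 with h5 | h5
      · rw [h5]; exact bot_le
      · rw [ENNReal.div_zero h5] at h3
        exact absurd h3 (not_lt.mpr le_top)
    · have h6 : minDist f x (dist ξ x) ≠ ⊤ := by
        have : minDist f x (dist ξ x) ≤ edist (f ξ) (f x) :=
          iInf₂_le (f := fun ζ (_ : ζ ∈ sphere x (dist ξ x)) => edist (f ζ) (f x)) ξ (mem_sphere.mpr rfl)
        exact ne_top_of_le_ne_top (edist_ne_top _ _) this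
      exact (ENNReal.div_le_iff h0 h6).mp h3.le
  have h5 : edist (f ξ) (f x) ≤ maxDist f x (dist ξ x) :=
    le_iSup₂_of_le (f := fun ζ (_ : ζ ∈ sphere x (dist ξ x)) => edist (f ζ) (f x)) ξ (mem_sphere.mpr rfl) le_rfl
  have h6 : minDist f x (dist ξ x) ≤ edist (f ξ') (f x) :=
    iInf₂_le (f := fun ζ (_ : ζ ∈ sphere x (dist ξ x)) => edist (f ζ) (f x)) ξ' (mem_sphere.mpr he.symm)
  have h7 : edist (f ξ) (f x) ≤ ENNReal.ofReal K * edist (f ξ') (f x) :=
    h5.trans (h4.trans (mul_le_mul_right h6 _))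
  rw [edist_dist, edist_dist, ← ENNReal.ofReal_mul hK,
    ENNReal.ofReal_le_ofReal_iff (mul_nonneg hK dist_nonneg)] at h7
  linarith

open Pool.Agent.Helper746.Qc in
theorem rnd_of_dil {n : ℕ} {f : Eucl n → Eucl n} {x : Eucl n} {k : ℝ} (hk : 1 < k)
    (h : dil f x < ENNReal.ofReal k) : Rnd k f x := by
  obtain ⟨A, h1⟩ := iInf_lt_iff.mp h
  obtain ⟨hA, h2⟩ := iInf_lt_iff.mp h1
  have h3 : ‖(A : Eucl n →L[ℝ] Eucl n)‖ * ‖(A.symm : Eucl n →L[ℝ] Eucl n)‖ < k :=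
    (ENNReal.ofReal_lt_ofReal_iff (by linarith)).mp h2
  set a := ‖(A : Eucl n →L[ℝ] Eucl n)‖ with ha
  set b := ‖(A.symm : Eucl n →L[ℝ] Eucl n)‖ with hb
  -- choose ε with (a + ε) * b ≤ k * (1 - ε * b)
  obtain ⟨ε, hε, hεk⟩ : ∃ ε : ℝ, 0 < ε ∧ (a + ε) * b ≤ k * (1 - ε * b) := by
    refine ⟨(k - a * b) / ((1 + k) * (b + 1)), div_pos (by linarith) (by positivity), ?_⟩
    have hb0 : 0 ≤ b := norm_nonneg _
    have h4 : (k - a * b) / ((1 + k) * (b + 1)) * b * (1 + k) ≤ k - a * b := by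
      have : (k - a * b) / ((1 + k) * (b + 1)) * b * (1 + k) = (k - a * b) * (b / (b + 1)) := by
        field_simp
      rw [this]
      have h5 : b / (b + 1) ≤ 1 := by rw [div_le_one (by linarith)]; linarith
      nlinarith
    nlinarith
  have h5 := (hasFDerivAt_iff_isLittleO_nhds_zero.mp hA).bound hε
  rw [Metric.eventually_nhds_iff] at h5
  obtain ⟨δ, hδ, h6⟩ := h5
  refine ⟨δ, hδ, ?_⟩
  intro ξ ξ' he hp hl
  have hu := h6 (y := ξ - x) (by rw [dist_zero_right, ← dist_eq_norm]; exact hl)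
  have hv := h6 (y := ξ' - x) (by rw [dist_zero_right, ← dist_eq_norm, ← he]; exact hl)
  rw [add_sub_cancel, ← dist_eq_norm ξ x] at hu
  rw [add_sub_cancel, ← dist_eq_norm ξ' x, ← he] at hv
  set d := dist ξ x with hd
  have hb0 : 0 ≤ b := norm_nonneg _
  have ha0 : 0 ≤ a := norm_nonneg _
  have hU : dist (f ξ) (f x) ≤ (a + ε) * d := by
    rw [dist_eq_norm]
    have h7 : ‖(A : Eucl n →L[ℝ] Eucl n) (ξ - x)‖ ≤ a * d := by
      have := (A : Eucl n →L[ℝ] Eucl n).le_opNorm (ξ - x)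
      rwa [← dist_eq_norm ξ x] at this
    have h8 : f ξ - f x = (f ξ - f x - (A : Eucl n →L[ℝ] Eucl n) (ξ - x)) +
        (A : Eucl n →L[ℝ] Eucl n) (ξ - x) := by abel
    rw [h8]
    refine (norm_add_le _ _).trans ?_
    linarith
  have hV : d ≤ b * (dist (f ξ') (f x) + ε * d) := by
    have h7 : ‖ξ' - x‖ ≤ b * ‖(A : Eucl n →L[ℝ] Eucl n) (ξ' - x)‖ := by
      have := (A.symm : Eucl n →L[ℝ] Eucl n).le_opNorm ((A : Eucl n →L[ℝ] Eucl n) (ξ' - x))
      simpa using this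
    have h8 : ‖(A : Eucl n →L[ℝ] Eucl n) (ξ' - x)‖ ≤ dist (f ξ') (f x) + ε * d := by
      rw [dist_eq_norm]
      have h9 : (A : Eucl n →L[ℝ] Eucl n) (ξ' - x) = (f ξ' - f x) -
        (f ξ' - f x - (A : Eucl n →L[ℝ] Eucl n) (ξ' - x)) := by abel
      rw [h9]
      refine (norm_sub_le _ _).trans ?_
      linarith
    rw [← dist_eq_norm, ← he] at h7
    exact h7.trans (mul_le_mul_of_nonneg_left h8 hb0)
  have hb1 : 0 < b := by
    rcases hb0.lt_or_eq with h | h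
    · exact h
    · rw [← h] at hV; linarith
  -- d (1 - ε b) ≤ b * dist
  have h9 : d * (1 - ε * b) ≤ b * dist (f ξ') (f x) := by nlinarith
  have h10 : b * dist (f ξ) (f x) ≤ b * (k * dist (f ξ') (f x)) := by
    calc b * dist (f ξ) (f x) ≤ b * ((a + ε) * d) := mul_le_mul_of_nonneg_left hU hb0
      _ = ((a + ε) * b) * d := by ring
      _ ≤ (k * (1 - ε * b)) * d := mul_le_mul_of_nonneg_right hεk dist_nonneg
      _ = k * (d * (1 - ε * b)) := by ring
      _ ≤ k * (b * dist (f ξ') (f x)) := mul_le_mul_of_nonneg_left h9 (by linarith)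
      _ = b * (k * dist (f ξ') (f x)) := by ring
  exact le_of_mul_le_mul_left h10 hb1

open Pool.Agent.Helper746.Qc in
theorem lq_of_isLocQC {n : ℕ} {k : ℝ} (hk : 1 < k) {f : Eucl n → Eucl n} (hf : IsLocQC k f) :
    LQ k f := by
  refine ⟨?_, ?_, ?_, ?_⟩
  · intro x hx
    obtain ⟨U, hxU, hUo, hUc, -, -⟩ := hf.locQC x hx
    exact ((hUc x hxU).continuousAt (hUo.mem_nhds hxU)).continuousWithinAt
  · intro x hx
    obtain ⟨U, hxU, hUo, -, hUi, -⟩ := hf.locQC x hx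
    obtain ⟨δ, hδ, hs⟩ := Metric.isOpen_iff.mp hUo x hxU
    exact ⟨δ, hδ, hUi.mono hs⟩
  · intro x hx
    obtain ⟨U, hxU, hUo, -, -, H, hH, hb⟩ := hf.locQC x hx
    obtain ⟨δ, hδ, hs⟩ := Metric.isOpen_iff.mp hUo x hxU
    refine ⟨H.toReal + 1, by linarith [ENNReal.toReal_nonneg (a := H)], δ, hδ, fun z hz => ?_⟩
    refine rnd_of_linDil (by linarith [ENNReal.toReal_nonneg (a := H)])
      (lt_of_le_of_lt (hb z (hs (mem_ball.mpr hz))) ?_)
    conv_lhs => rw [← ENNReal.ofReal_toReal hH.ne]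
    exact (ENNReal.ofReal_lt_ofReal_iff (by linarith [ENNReal.toReal_nonneg (a := H)])).mpr (by linarith)
  · have h1 : ∀ᵐ x ∂(volume.restrict (ball (0 : Eucl n) 1)), dil f x < ENNReal.ofReal k :=
      ae_lt_of_essSup_lt hf.coeff_lt
    rw [ae_restrict_iff' measurableSet_ball] at h1
    filter_upwards [h1] with x hx hxb
    exact rnd_of_dil hk (hx hxb)

/-- **Dimension-free injectivity radius**: `R(k) = inf_{n ≥ 3} r(n, k) > 0` for every `k > 1`. -/
theorem result : ∀ k : ℝ, 1 < k → 0 < R k := by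
  intro k hk
  obtain ⟨A₀, hA₀⟩ := Pool.Agent.Helper746.Qc.final_norm (K := k) hk.le
  obtain ⟨ρ₀, hρ0, hρ1, hρA⟩ : ∃ ρ₀ : ℝ, 0 < ρ₀ ∧ ρ₀ < 1 / 64 ∧ A₀ < 1 / (16 * ρ₀) := by
    refine ⟨1 / (65 * (|A₀| + 1)), by positivity, ?_, ?_⟩
    · rw [div_lt_div_iff₀ (by positivity) (by norm_num)]
      nlinarith [abs_nonneg A₀]
    · rw [lt_div_iff₀ (by positivity)]
      have h1 : A₀ ≤ |A₀| := le_abs_self _
      have h2 : 0 < |A₀| + 1 := by positivity
      rw [show A₀ * (16 * (1 / (65 * (|A₀| + 1)))) = (A₀ * 16) / (65 * (|A₀| + 1)) by ring,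
        div_lt_one (by positivity)]
      nlinarith [abs_nonneg A₀]
  refine lt_of_lt_of_le (ENNReal.ofReal_pos.mpr hρ0) ?_
  refine le_iInf₂ fun n hn => le_iInf₂ fun f hf => ?_
  have hLQ := lq_of_isLocQC hk hf
  have hinj : InjOn f (ball 0 ρ₀) := by
    by_contra hni
    obtain ⟨H, hH, g, hg, p, q, hp, hq, hpq, hfpq⟩ := Pool.Agent.Helper746.Qc.blowup (by omega) hLQ
      (fun g x r hr hc hi => Pool.Agent.Helper514.IoD.image_mem_nhds g x r hr hc hi) hρ0 hρ1 hni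
    have := hA₀ n hn H hH _ g hg p q hp hq hpq hfpq
    linarith
  exact le_iSup_of_le ρ₀ (le_iSup_of_le (by linarith) (le_iSup_of_le hinj le_rfl))

end Pool.Agent.Results.MP_d8b51b_an.DimensionFreeInjectivity
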